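import Pool.Agent.Helper157.MSM3

set_option autoImplicit false

namespace Pool.Agent.Results.MP_eef58c_lc.NoApprox

open MeasureTheory Pool.Agent.Helper157.MSM

/-- Sanity check of the model: with one bit per possible edge (`n (n + 1) / 2` bits) a
deterministic algorithm solves maximum submodular matching exactly. -/
theorem exact (n : ℕ) : ∃ A : Alg n (Fintype.card (Edge n)),
    ∀ (G : SimpleGraph (Fin n)) (l : List (Edge n)) (f : Finset (Edge n) → ℝ),
      IsStream G l → MonoSubmod f → Success A 1 G l f :=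
  exact_alg n

/-- The stronger bound behind the result: for every `α < 2` an `α`-approximation needs
`Ω(n ^ 2)` bits of memory. -/
theorem quadratic (α : ℝ) (hα : α < 2) : ∃ c : ℝ, 0 < c ∧ ∃ n₀ : ℕ, ∀ n ≥ n₀, ∀ s : ℕ,
    (s : ℝ) ≤ c * (n : ℝ) ^ 2 → ∀ (Ω : Type) [MeasurableSpace Ω] (μ : Measure Ω)
    [IsProbabilityMeasure μ] (A : Ω → Alg n s), ¬ Approx μ A α :=
  quad α hα

/-- For every constant `α < 2`, no randomised one-pass streaming algorithm with `n polylog(n)` bits
of memory `α`-approximates maximum submodular matching, even for a single large `n`. -/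
theorem result (α : ℝ) (hα : α < 2) (C : ℝ) (d : ℕ) : ∃ n₀ : ℕ, ∀ n ≥ n₀, ∀ s : ℕ,
    (s : ℝ) ≤ C * n * (Real.log n) ^ d → ∀ (Ω : Type) [MeasurableSpace Ω] (μ : Measure Ω)
    [IsProbabilityMeasure μ] (A : Ω → Alg n s), ¬ Approx μ A α :=
  polylog α hα C d

end Pool.Agent.Results.MP_eef58c_lc.NoApprox
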